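import Pool.Agent.W761.CC.Stms

/-!
# CC-CAPT: the scattering inequalities around several points of the torus
-/

set_option autoImplicit false

open MeasureTheory
open scoped ENNReal

namespace Pool.Agent.W554.CC

open Pool.Agent.W761.CB Pool.Agent.W761.CC

section lem

variable {n : ℕ} {L : ℝ} [Fact (0 < L)]

theorem cube_meas (r : ℝ) : MeasurableSet (cube n r) := by
  have : cube n r = ⋂ c : Fin n, {z | |z c| ≤ r} := by
    ext z; simp [cube]
  rw [this]
  refine MeasurableSet.iInter fun c => ?_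
  exact measurableSet_le (measurable_pi_apply c).abs measurable_const

omit [Fact (0 < L)] in
theorem meas_add (y : Tor n L) : Measurable (fun x : Tor n L => x + y) := by
  refine measurable_pi_lambda _ fun c => ?_
  have h : Measurable (fun x : Tor n L => x c) := measurable_pi_apply c
  exact h.add_const (y c)

theorem meas_sub (y : Tor n L) : Measurable (fun x : Tor n L => x - y) := by
  simp only [sub_eq_add_neg]
  exact meas_add (-y)

/-- the image of the cube in the torus -/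
def Cr (n : ℕ) (L r : ℝ) : Set (Tor n L) := {x | ∀ c, ‖x c‖ ≤ r}

omit [Fact (0 < L)] in
theorem Cr_meas (r : ℝ) : MeasurableSet (Cr n L r) := by
  have : Cr n L r = ⋂ c : Fin n, {x | ‖x c‖ ≤ r} := by
    ext z; simp [Cr]
  rw [this]
  refine MeasurableSet.iInter fun c => ?_
  exact measurableSet_le (continuous_norm.measurable.comp (measurable_pi_apply c)) measurable_const

theorem one_cube (hTF : S_TF) {r : ℝ} (hL : 2 * r < L) (y : Tor n L)
    (g : Tor n L → ℝ≥0∞) (hg : Measurable g) :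
    ∫⁻ z in cube n r, g (y + pr L z) =
      ∫⁻ x, (Cr n L r).indicator (fun _ => (1 : ℝ≥0∞)) (x - y) * g x := by
  obtain ⟨-, hpr, hadd, hint, htr, hnorm, hsurj, -⟩ := hTF n L
  have hFm : Measurable (fun x : Tor n L =>
      (Cr n L r).indicator (fun _ => (1 : ℝ≥0∞)) (x - y) * g x) :=
    ((measurable_const.indicator (Cr_meas r)).comp (meas_sub y)).mul hg
  rw [← htr _ hFm y]
  have e1 : (fun x : Tor n L => (Cr n L r).indicator (fun _ => (1 : ℝ≥0∞)) (x + y - y) * g (x + y))
      = fun x => (Cr n L r).indicator (fun _ => (1 : ℝ≥0∞)) x * g (x + y) := by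
    funext x
    rw [add_sub_cancel_right]
  rw [e1]
  have hFm2 : Measurable (fun x : Tor n L =>
      (Cr n L r).indicator (fun _ => (1 : ℝ≥0∞)) x * g (x + y)) :=
    (measurable_const.indicator (Cr_meas r)).mul (hg.comp (meas_add y))
  rw [hint _ hFm2]
  have hBm : MeasurableSet {z : Fin n → ℝ | ∀ c, -(L / 2) < z c ∧ z c ≤ L / 2} := by
    have : {z : Fin n → ℝ | ∀ c, -(L / 2) < z c ∧ z c ≤ L / 2} =
        ⋂ c : Fin n, {z | -(L / 2) < z c ∧ z c ≤ L / 2} := by
      ext z; simp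
    rw [this]
    refine MeasurableSet.iInter fun c => ?_
    exact (measurableSet_lt measurable_const (measurable_pi_apply c)).inter
      (measurableSet_le (measurable_pi_apply c) measurable_const)
  rw [← lintegral_indicator (cube_meas r), ← lintegral_indicator hBm]
  refine lintegral_congr fun z => ?_
  by_cases hz : z ∈ cube n r
  · have hzB : z ∈ {z : Fin n → ℝ | ∀ c, -(L / 2) < z c ∧ z c ≤ L / 2} := by
      intro c
      have := abs_le.1 (hz c)
      constructor <;> linarith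
    rw [Set.indicator_of_mem hz, Set.indicator_of_mem hzB]
    have hC : pr L z ∈ Cr n L r := by
      intro c
      rw [hnorm z (fun c => (hz c).trans (by linarith)) c]
      exact hz c
    rw [Set.indicator_of_mem hC, one_mul, add_comm]
  · rw [Set.indicator_of_notMem hz]
    by_cases hzB : z ∈ {z : Fin n → ℝ | ∀ c, -(L / 2) < z c ∧ z c ≤ L / 2}
    · rw [Set.indicator_of_mem hzB]
      have hC : pr L z ∉ Cr n L r := by
        intro h
        apply hz
        intro c
        have h1 := h c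
        rwa [hnorm z (fun c => abs_le.2 ⟨(hzB c).1.le, (hzB c).2⟩) c] at h1
      rw [Set.indicator_of_notMem hC, zero_mul]
    · rw [Set.indicator_of_notMem hzB]

theorem sum_cube_le (hTF : S_TF) {r : ℝ} (hL : 2 * r < L) (G : Finset (Tor n L))
    (hG : ∀ y ∈ G, ∀ y' ∈ G, y ≠ y' → ∀ z ∈ cube n r, ∀ z' ∈ cube n r,
      y + pr L z ≠ y' + pr L z')
    (g : Tor n L → ℝ≥0∞) (hg : Measurable g) :
    ∑ y ∈ G, ∫⁻ z in cube n r, g (y + pr L z) ≤ ∫⁻ x, g x := by
  classical
  have hsurj := (hTF n L).2.2.2.2.2.2.1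
  rw [Finset.sum_congr rfl fun y _ => one_cube hTF hL y g hg]
  rw [← lintegral_finsetSum G (f := fun (y x : Tor n L) =>
    (Cr n L r).indicator (fun _ => (1 : ℝ≥0∞)) (x - y) * g x) fun y _ =>
    ((measurable_const.indicator (Cr_meas r)).comp (meas_sub y)).mul hg]
  refine lintegral_mono fun x => ?_
  by_cases hex : ∃ y ∈ G, x - y ∈ Cr n L r
  · obtain ⟨y, hy, hxy⟩ := hex
    rw [Finset.sum_eq_single_of_mem y hy]
    · rw [Set.indicator_of_mem hxy, one_mul]
    · intro y' hy' hne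
      rw [Set.indicator_of_notMem, zero_mul]
      intro hxy'
      obtain ⟨z, hz1, hz2⟩ := hsurj (x - y)
      obtain ⟨z', hz1', hz2'⟩ := hsurj (x - y')
      refine hG y' hy' y hy hne z' (fun c => ?_) z (fun c => ?_) ?_
      · rw [(hz1' c).1]; exact hxy' c
      · rw [(hz1 c).1]; exact hxy c
      · rw [← hz2, ← hz2']; abel
  · push Not at hex
    rw [Finset.sum_eq_zero]
    · exact bot_le
    · intro y hy
      rw [Set.indicator_of_notMem (hex y hy), zero_mul]

theorem ofReal_re_im (w : ℂ) : ENNReal.ofReal (w.re ^ 2) + ENNReal.ofReal (w.im ^ 2) = ‖w‖ₑ ^ 2 := by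
  rw [← ENNReal.ofReal_add (sq_nonneg _) (sq_nonneg _)]
  have h : w.re ^ 2 + w.im ^ 2 = ‖w‖ ^ 2 := by
    rw [← Complex.normSq_eq_norm_sq, Complex.normSq_apply]; ring
  rw [h, ENNReal.ofReal_pow (norm_nonneg _), ofReal_norm]

theorem bm_re (hpr : Measurable (pr (n := n) L)) (f : Tor n L → ℂ) (hf : Measurable f)
    (hB : ∃ B : ℝ, ∀ x, ‖f x‖ ≤ B) (y : Tor n L) : BM (fun z : Fin n → ℝ => (f (y + pr L z)).re) := by
  obtain ⟨B, hB⟩ := hB
  refine ⟨?_, B, fun z => (Complex.abs_re_le_norm _).trans (hB _)⟩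
  have h1 : Measurable (fun x : Tor n L => y + x) := by
    simpa only [add_comm] using meas_add y
  exact Complex.measurable_re.comp (hf.comp (h1.comp hpr))

theorem bm_im (hpr : Measurable (pr (n := n) L)) (f : Tor n L → ℂ) (hf : Measurable f)
    (hB : ∃ B : ℝ, ∀ x, ‖f x‖ ≤ B) (y : Tor n L) : BM (fun z : Fin n → ℝ => (f (y + pr L z)).im) := by
  obtain ⟨B, hB⟩ := hB
  refine ⟨?_, B, fun z => (Complex.abs_im_le_norm _).trans (hB _)⟩
  have h1 : Measurable (fun x : Tor n L => y + x) := by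
    simpa only [add_comm] using meas_add y
  exact Complex.measurable_im.comp (hf.comp (h1.comp hpr))

theorem kin_part (hKQ : S_KQ) (hTF : S_TF) {r : ℝ} (hL : 2 * r < L) (G : Finset (Tor n L))
    (hG : ∀ y ∈ G, ∀ y' ∈ G, y ≠ y' → ∀ z ∈ cube n r, ∀ z' ∈ cube n r,
      y + pr L z ≠ y' + pr L z')
    (f : Tor n L → ℂ) (hf : Measurable f) (hB : ∃ B : ℝ, ∀ x, ‖f x‖ ≤ B) :
    ∑ y ∈ G, (gr (cube n r) (fun z => (f (y + pr L z)).re) +
      gr (cube n r) (fun z => (f (y + pr L z)).im)) ≤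
      ∑ c : Fin n, ⨆ k : ℕ, 4 ^ k * d1 f (ec L c ((2 : ℝ)⁻¹ ^ k)) := by
  obtain ⟨-, hpr, hadd, -⟩ := hTF n L
  have hmono := (hKQ n (cube n r) (Or.inr ⟨r, rfl⟩)).1
  have m1 : ∀ (y : Tor n L) (c : Fin n),
      Monotone (fun k => gk (cube n r) c k (fun z => (f (y + pr L z)).re)) := fun y c =>
    monotone_nat_of_le_succ fun k => hmono _ c k (bm_re hpr f hf hB y)
  have m2 : ∀ (y : Tor n L) (c : Fin n),
      Monotone (fun k => gk (cube n r) c k (fun z => (f (y + pr L z)).im)) := fun y c =>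
    monotone_nat_of_le_succ fun k => hmono _ c k (bm_im hpr f hf hB y)
  have e1 : ∑ y ∈ G, (gr (cube n r) (fun z => (f (y + pr L z)).re) +
      gr (cube n r) (fun z => (f (y + pr L z)).im)) =
      ∑ c : Fin n, ⨆ k : ℕ, ∑ y ∈ G, (gk (cube n r) c k (fun z => (f (y + pr L z)).re) +
        gk (cube n r) c k (fun z => (f (y + pr L z)).im)) := by
    unfold gr
    simp only [← Finset.sum_add_distrib]
    rw [Finset.sum_comm]
    refine Finset.sum_congr rfl fun c _ => ?_
    rw [← ENNReal.finsetSum_iSup_of_monotone]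
    · refine Finset.sum_congr rfl fun y _ => ?_
      exact ENNReal.iSup_add_iSup_of_monotone (m1 y c) (m2 y c)
    · intro y
      exact (m1 y c).add (m2 y c)
  rw [e1]
  refine Finset.sum_le_sum fun c _ => iSup_mono fun k => ?_
  set s : Fin n → ℝ := Pi.single c ((2 : ℝ)⁻¹ ^ k) with hs
  set h : Tor n L → ℝ≥0∞ := fun x => ‖f (x + pr L s) - f x‖ₑ ^ 2 with hh
  have hhm : Measurable h := (((hf.comp (meas_add (pr L s))).sub hf).enorm.pow_const 2)
  have hd : d1 f (ec L c ((2 : ℝ)⁻¹ ^ k)) = ∫⁻ x, h x := rfl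
  rw [hd]
  refine le_trans ?_ (mul_le_mul_right (sum_cube_le hTF hL G hG h hhm) (4 ^ k))
  rw [Finset.mul_sum]
  refine Finset.sum_le_sum fun y _ => ?_
  unfold gk
  rw [← mul_add]
  refine mul_le_mul_right ?_ _
  rw [← hs]
  have hsm : Measurable (fun z : Fin n → ℝ => z + s) := measurable_id.add_const s
  rw [← lintegral_add_left]
  · have hsub : {z : Fin n → ℝ | z ∈ cube n r ∧ z + s ∈ cube n r} ⊆ cube n r := fun z hz => hz.1
    refine le_trans (lintegral_mono fun z => ?_) (lintegral_mono_set hsub)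
    show ENNReal.ofReal (((f (y + pr L (z + s))).re - (f (y + pr L z)).re) ^ 2) +
      ENNReal.ofReal (((f (y + pr L (z + s))).im - (f (y + pr L z)).im) ^ 2) ≤
        ‖f (y + pr L z + pr L s) - f (y + pr L z)‖ₑ ^ 2
    rw [← ofReal_re_im, Complex.sub_re, Complex.sub_im, hadd, add_assoc]
  · have b := (bm_re hpr f hf hB y).meas
    exact (((b.comp hsm).sub b).pow_const 2).ennreal_ofReal

theorem el_meas : Measurable (fun z : Fin n → ℝ => el z) := by
  unfold el
  exact (Finset.measurable_sum _ fun c _ => (measurable_pi_apply c).pow_const 2).sqrt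

theorem pot_part (hTF : S_TF) {r : ℝ} (hr : 0 < r) (hL : 2 * r < L) (v : ℝ → ℝ≥0∞)
    (hv : Measurable v) (f : Tor n L → ℂ) (hf : Measurable f) (hB : ∃ B : ℝ, ∀ x, ‖f x‖ ≤ B)
    (y : Tor n L) :
    (∫⁻ z in cube n r, v (el z) * ENNReal.ofReal ((f (y + pr L z)).re ^ 2)) +
      (∫⁻ z in cube n r, v (el z) * ENNReal.ofReal ((f (y + pr L z)).im ^ 2)) ≤
      ∫⁻ x, v (tdist x y) * ‖f x‖ₑ ^ 2 := by
  obtain ⟨-, hpr, hadd, -, -, hnorm, -, hv8⟩ := hTF n L
  have hg : Measurable (fun x : Tor n L => v (tdist x y) * ‖f x‖ₑ ^ 2) := by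
    have h0 := (hv8 v hv).1
    have h01 : Measurable (fun x : Tor n L => ((x, y) : Tor n L × Tor n L)) :=
      measurable_prodMk_right
    have h1 : Measurable ((fun p : Tor n L × Tor n L => v (tdist p.1 p.2)) ∘
      (fun x : Tor n L => ((x, y) : Tor n L × Tor n L))) := Measurable.comp h0 h01
    have h2 : ((fun p : Tor n L × Tor n L => v (tdist p.1 p.2)) ∘
      (fun x : Tor n L => ((x, y) : Tor n L × Tor n L))) = fun x : Tor n L => v (tdist x y) := rfl
    rw [h2] at h1
    exact h1.mul (hf.enorm.pow_const 2)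
  obtain ⟨g, hgd⟩ : ∃ g : Tor n L → ℝ≥0∞, g = fun x => v (tdist x y) * ‖f x‖ₑ ^ 2 := ⟨_, rfl⟩
  rw [← hgd] at hg
  have hg2 : ∫⁻ x, v (tdist x y) * ‖f x‖ₑ ^ 2 = ∫⁻ x, g x := by rw [hgd]
  rw [hg2]
  have hdis : ∀ a ∈ ({y} : Finset (Tor n L)), ∀ b ∈ ({y} : Finset (Tor n L)), a ≠ b →
      ∀ z ∈ cube n r, ∀ z' ∈ cube n r, a + pr L z ≠ b + pr L z' := by
    intro a ha b hb hab
    rw [Finset.mem_singleton] at ha hb
    exact absurd (ha.trans hb.symm) hab
  have h2 := sum_cube_le hTF hL ({y} : Finset (Tor n L)) hdis g hg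
  rw [Finset.sum_singleton] at h2
  refine le_trans (le_of_eq ?_) h2
  rw [← lintegral_add_left]
  · refine setLIntegral_congr_fun (cube_meas r) fun z hz => ?_
    have h5 : g (y + pr L z) = v (tdist (y + pr L z) y) * ‖f (y + pr L z)‖ₑ ^ 2 := by rw [hgd]
    show v (el z) * ENNReal.ofReal ((f (y + pr L z)).re ^ 2) +
      v (el z) * ENNReal.ofReal ((f (y + pr L z)).im ^ 2) = g (y + pr L z)
    have h4 : el z = tdist (y + pr L z) y := by
      unfold el tdist
      congr 1
      refine Finset.sum_congr rfl fun c _ => ?_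
      have h3 : (y + pr L z) c - y c = pr L z c := by
        rw [Pi.add_apply, add_sub_cancel_left]
      rw [h3, hnorm z (fun c => (hz c).trans (by linarith)) c, sq_abs]
    rw [h5, ← mul_add, ofReal_re_im, h4]
  · exact (hv.comp el_meas).mul (((bm_re hpr f hf hB y).meas.pow_const 2).ennreal_ofReal)

theorem avg_part (hTF : S_TF) {r : ℝ} (hr : 0 < r) {γ₀ μ : ℝ} (hγ : 0 ≤ γ₀) (v : ℝ → ℝ≥0∞)
    (hCap : Cap n μ v γ₀ r) (f : Tor n L → ℂ) (hf : Measurable f) (hB : ∃ B : ℝ, ∀ x, ‖f x‖ ≤ B)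
    (y : Tor n L) :
    ENNReal.ofReal γ₀ * ‖(((2 * r) ^ n : ℝ) : ℂ)⁻¹ * ∫ z in cube n r, f (y + pr L z)‖ₑ ^ 2 ≤
      QD μ v (cube n r) (fun z => (f (y + pr L z)).re) +
        QD μ v (cube n r) (fun z => (f (y + pr L z)).im) := by
  obtain ⟨-, hpr, -⟩ := hTF n L
  have h1 := hCap _ (bm_re hpr f hf hB y)
  have h2 := hCap _ (bm_im hpr f hf hB y)
  have hadd : Measurable (fun z : Fin n → ℝ => f (y + pr L z)) := by
    have h1 : Measurable (fun x : Tor n L => y + x) := by
      simpa only [add_comm] using meas_add y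
    exact hf.comp (h1.comp hpr)
  have hint : IntegrableOn (fun z : Fin n → ℝ => f (y + pr L z)) (cube n r) := by
    obtain ⟨B, hB⟩ := hB
    refine Measure.integrableOn_of_bounded (M := B) ?_ hadd.aestronglyMeasurable
      (Filter.Eventually.of_forall fun z => hB _)
    have hsub : cube n r ⊆ Metric.closedBall (0 : Fin n → ℝ) r := by
      intro z hz
      rw [Metric.mem_closedBall, dist_zero_right, pi_norm_le_iff_of_nonneg hr.le]
      exact hz
    exact ((measure_mono hsub).trans_lt measure_closedBall_lt_top).ne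
  have e1 : ∫ z in cube n r, (f (y + pr L z)).re = (∫ z in cube n r, f (y + pr L z)).re := by
    exact Complex.reCLM.integral_comp_comm hint
  have e2 : ∫ z in cube n r, (f (y + pr L z)).im = (∫ z in cube n r, f (y + pr L z)).im := by
    exact Complex.imCLM.integral_comp_comm hint
  rw [e1] at h1
  rw [e2] at h2
  refine le_trans (le_of_eq ?_) (add_le_add h1 h2)
  rw [← ofReal_re_im, mul_add, ← ENNReal.ofReal_mul hγ, ← ENNReal.ofReal_mul hγ,
    ← Complex.ofReal_inv, Complex.re_ofReal_mul, Complex.im_ofReal_mul]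

end lem

theorem main (hKQ : S_KQ) (hTF : S_TF) : S_CAPT := by
  intro n L μ γ₀ r _ v G f hμ hγ hr hL hv hCap hf hB hG
  rw [Finset.mul_sum]
  refine (Finset.sum_le_sum fun y _ => avg_part hTF hr hγ v hCap f hf hB y).trans ?_
  have e : ∑ y ∈ G, (QD μ v (cube n r) (fun z => (f (y + pr L z)).re) +
      QD μ v (cube n r) (fun z => (f (y + pr L z)).im)) =
      ENNReal.ofReal μ * (∑ y ∈ G, (gr (cube n r) (fun z => (f (y + pr L z)).re) +
        gr (cube n r) (fun z => (f (y + pr L z)).im))) +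
      2⁻¹ * ∑ y ∈ G, ((∫⁻ z in cube n r, v (el z) * ENNReal.ofReal ((f (y + pr L z)).re ^ 2)) +
        (∫⁻ z in cube n r, v (el z) * ENNReal.ofReal ((f (y + pr L z)).im ^ 2))) := by
    rw [Finset.mul_sum, Finset.mul_sum, ← Finset.sum_add_distrib]
    refine Finset.sum_congr rfl fun y _ => ?_
    unfold QD
    ring
  rw [e]
  refine add_le_add (mul_le_mul_right (kin_part hKQ hTF hL G hG f hf hB) _)
    (mul_le_mul_right (Finset.sum_le_sum fun y _ => pot_part hTF hr hL v hv f hf hB y) _)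

end Pool.Agent.W554.CC
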